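import Pool.Agent.R910.Pow.AJ

/-!
# MP_a1cc03_ag: injectivity of the Abel-Jacobi map, from sums of powers of divisors near the middle dimension

Let `k` be the algebraic closure of `ℚ` in `ℂ`, and let `CH` denote Chow groups with rational coefficients. For a
smooth projective variety `X` over `k` consider the Abel-Jacobi map from the homologically trivial classes in
`CH ^ i (X)` to the intermediate Jacobian `J ^ (2 i - 1) (X)`, tensored with `ℚ`. Since Chow groups with rational
coefficients over a number field inject into those over `k`, and since `X` and its cycles are defined over a number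
field, the question Q1 for all number fields is the question whether this map is injective for all `X` and `i`.

Let `ℛ` be the set of the varieties over `k` which are obtained from projective spaces by successive blow-ups in smooth
centres.

**Theorem.** For each natural number `j` these are equivalent.

1. The Abel-Jacobi map is injective on `j`-cycles on all `X` of dimension `2 j + 2`.
2. The Abel-Jacobi map is injective on cycles of dimension at most `j` on all `X` of any dimension.
3. For one `n ≥ 2 j + 2` the Abel-Jacobi map is injective on `j`-cycles on all `X` of dimension `n`.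
4. For all `B` in `ℛ` of dimension `2 j + 4`: if a linear combination `∑ a_s D_s ^ (j + 3)` of powers of divisor classes on
   `B` is homologically trivial and in the kernel of the Abel-Jacobi map, then it is `0`.
5. The Abel-Jacobi map is injective on cycles of dimension at most `j + 1` on all `B` in `ℛ` of any dimension.

**Corollary.** The Abel-Jacobi map is injective on all varieties and for all cycles if and only if, for infinitely
many `j`, it is injective on the classes `∑ a_s D_s ^ (j + 2)` on all `B` in `ℛ` of dimension `2 j + 2`.

For `j = 0`: the Abel-Jacobi (Albanese) map is injective on zero-cycles on all varieties over `k` if and only if the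
Abel-Jacobi map is injective on linear combinations of cubes of divisors on rational fourfolds.

In the Lean statement, `𝒮` is the set of all varieties over `k`, and these structures collect the known theorems.

* `AJData.IsFunctorial`: the Abel-Jacobi map is compatible with pull-back, push-forward and products.
* `HasAJSections`: if `dim X > 2 j + 2`, every `w` in `CH_j(X)` is the push-forward of a class on a smooth hyperplane
  section `Z` of large degree, by Kleiman (smoothing of cycles) and Altman and Kleiman (sections through a smooth
  subscheme of dimension `j`). For `i = dim Z - j` the maps `H ^ (2 i) (Z) → H ^ (2 i + 2) (X)` and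
  `H ^ (2 i - 1) (Z) → H ^ (2 i + 1) (X)` are isomorphisms by the weak Lefschetz theorem, since `2 i - 1 > dim Z`, so
  that the map of the intermediate Jacobians is an isogeny.
* `IsBlowUpFamily`: `X` is birational to a smooth divisor `X'` on some `B'` in `ℛ` of dimension `dim X + 1` (Hironaka);
  let `B` be the blow-up of `B' × ℙ ^ 1` in `X' × 0`. The motive of a blow-up of `Y` in `Z` is the sum of the motive
  of `Y` and of positive Tate twists of the motive of `Z`.
* `SplitsByBlowUps`: for `w` in `CH ^ i (X)` there is a composition `π : X' → X` of blow-ups in smooth centres such that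
  `π^* w` is a linear combination of powers `D ^ i` of divisor classes.
-/

open CategoryTheory AlgebraicGeometry
open Pool.Agent.H914 Pool.Agent.H914.VarClass Pool.Agent.H914.VarClass.Obj

universe u v w

namespace Pool.Agent.Results.MP_a1cc03_ag.MiddleDimension

open Pool.Agent.R903 Pool.Agent.R910.Nil Pool.Agent.R910.Pow

/-- **The Abel-Jacobi map is injective for all cycles if it is injective on sums of powers of divisor classes on
rational varieties of dimension `2 j + 2`, in dimension `j`, for infinitely many `j`.** -/
theorem result {k : Type u} [Field k] {𝒱 : VarClass k} {C : ChowTheory.{u, v} 𝒱}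
    (A : AJData.{u, v, w} C) (hA : A.IsFunctorial)
    (𝒮 ℛ : Set 𝒱.Obj) (hS : HasAJSections A 𝒮) (hR : IsBlowUpFamily C 𝒮 ℛ)
    (hs : SplitsByBlowUps C ℛ) :
    (∀ j, List.TFAE [
      ∀ X ∈ 𝒮, X.dim = 2 * j + 2 → AJInjectiveIn A X j,
      ∀ X ∈ 𝒮, ∀ i ≤ j, AJInjectiveIn A X i,
      ∃ n, 2 * j + 2 ≤ n ∧ ∀ X ∈ 𝒮, X.dim = n → AJInjectiveIn A X j,
      ∀ B ∈ ℛ, B.dim = 2 * j + 4 → AJInjectiveOnPowers A B (j + 3),
      ∀ B ∈ ℛ, ∀ i ≤ j + 1, AJInjectiveIn A B i]) ∧
    List.TFAE [
      AJInjective A 𝒮,
      AJInjective A ℛ,
      ∀ m, ∃ j, m ≤ j ∧ ∀ X ∈ 𝒮, X.dim = 2 * j + 2 → AJInjectiveIn A X j,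
      ∀ m, ∃ j, m ≤ j ∧ ∀ B ∈ ℛ, B.dim = 2 * j + 2 → AJInjectiveOnPowers A B (j + 2)] :=
  ⟨ajInjectiveIn_tfae hA hS hR hs, ajInjective_tfae hA hS hR hs⟩

end Pool.Agent.Results.MP_a1cc03_ag.MiddleDimension
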