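import Pool.Agent.R898.PEM

/-!
# Injectivity of the Abel–Jacobi map: one step of the Lefschetz operator, and primitive cycles

The setting: `𝒱` is a class of smooth projective varieties over a field (a number field in the
problem), closed under products, `C` stands for the Chow groups with rational coefficients, `W` for
singular cohomology; `CH^m(X)_hom = homTriv W X m`. `T : AJMap W` has the formal properties of the
Abel–Jacobi map (functoriality for correspondences; a correspondence which vanishes on `H^(2m-1)(X)`
acts as zero on the intermediate Jacobian `J^m(X)`).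

`S` is a class of pairs `(X, D)` of a variety and a divisor class, and `(P a, h a)` is for each `a` a
variety of dimension `a` with a divisor class with `deg (h a)^a > 0`, such that `S` is closed under the
products with the `(P a, h a)` (`IsStable`). Example: all smooth projective varieties with the ample
divisor classes, and the projective spaces with the class of a hyperplane.

* `AJLef T X D`: for `i ≤ (n+1)/2`, `n = dim X`, and `y` in `CH^i(X)_hom`, if `AJ(D^(n+1-2i) y) = 0` then
  `AJ(y) = 0`. For Griffiths's Abel–Jacobi map (tensored with the rational numbers) and ample `D` this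
  is a consequence of the hard Lefschetz theorem.
* `ArithLef W X D`: `D^(n+1-2i) : CH^i(X)_hom → CH^(n+1-i)(X)_hom` is an isomorphism for `i ≤ (n+1)/2`
  (Beilinson's arithmetic hard Lefschetz conjecture).
* `LefStd W X D`: the standard conjecture of Lefschetz type for `(X, D)`.

The theorem: let `I` and `J` be arbitrary infinite sets of natural numbers, and consider

(a) for the pairs `(X, D)` in `S` with `dim X = 2i`, `i ∈ I`, the map
    `D : CH^i(X)_hom → CH^(i+1)(X)_hom` is surjective (`SurjAt`);
(b) for the pairs `(X, D)` in `S` with `dim X = 2i - 1`, `i ∈ J`, the Abel–Jacobi map is injective on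
    the `x` in `CH^i(X)_hom` with `D x = 0` (`AJPrimAt`).

1. If all pairs in `S` satisfy `AJLef`, then (a) and (b) hold if and only if all pairs `(X, D)` in `S`
   satisfy Beilinson's arithmetic hard Lefschetz conjecture and the Abel–Jacobi map is injective on
   `CH^m(X)_hom` for all `m`.
2. If all pairs in `S` satisfy the standard conjecture of Lefschetz type, then (a) and (b) hold if and
   only if the Abel–Jacobi map is injective on `CH^m(X)_hom` for all `(X, D)` in `S` and all `m`.
-/

open Pool.Agent.H914 Pool.Agent.R903 Pool.Agent.R898.HL Pool.Agent.R898.AK Pool.Agent.R898.PD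
  Pool.Agent.R898.PE

universe u v w

/-- Reduction to one step of the Lefschetz operator and primitive cycles. -/
theorem Pool.Agent.Results.MP_a1cc03_ag.OneLefschetzStep.result {k : Type u} [Field k]
    {𝒱 : VarClass k} (C : ChowTheory.{u, v} 𝒱) (hPol : C.Polarized) (W : WeilTheory.{u, v, w} C)
    (T : AJMap W) (S : ∀ X : 𝒱.Obj, C.CH X → Prop) (P : ℕ → 𝒱.Obj) (h : ∀ a, C.CH (P a))
    (hS : IsStable C S P h) (I J : Set ℕ) (hI : Unbounded I) (hJ : Unbounded J) :
    ((∀ X D, S X D → AJLef T X D) → ((∀ X D, S X D → ArithLef W X D ∧ ∀ m, AJInj T X m) ↔
        SurjAt W S I ∧ AJPrimAt T S J)) ∧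
      ((∀ X D, S X D → LefStd W X D) → ((∀ X D, S X D → ∀ m, AJInj T X m) ↔
        SurjAt W S I ∧ AJPrimAt T S J)) :=
  main hPol T hS hI hJ
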