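import Pool.Agent.R898.AQM

/-!
# Injectivity of the Abel–Jacobi map and varieties with little odd cohomology

The setting: `𝒱` is a class of smooth projective varieties over a field, closed under products, `C`
stands for the Chow groups with rational coefficients, `W` for a Weil cohomology theory, for example
singular cohomology; `CH^m(X)_hom = homTriv W X m`. `T : AJMap W` has the formal properties of the
Abel–Jacobi map (functoriality for correspondences; a correspondence which vanishes on `H^(2m-1)(X)`
acts as zero on the intermediate Jacobian `J^m(X)`), for example Griffiths's Abel–Jacobi map composed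
with the base change from a number field to the complex numbers, with rational coefficients.

* `IsAbelianClass W S`: `S` is a class of pairs `(A, D)`, closed under products, which have the formal
  properties of abelian varieties with a symmetric ample divisor class, and the motives of the
  varieties in `𝒱` are summands of twists of motives of members of `S`. Example: all abelian
  varieties, `𝒱` the varieties of abelian type. The properties (`IsAbelianLike`) are explained in the
  file `Pool.Agent.R898.QS`; the varieties `X_r` which occur there are resolutions of the quotients of
  `A^r` by the groups of the sign changes `(ε_1, …, ε_r)` with `ε_1 ⋯ ε_r = 1`.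
* `OneSided W X m`: `H^i(X) = 0` for all odd `i < 2m - 1`, or `H^i(X) = 0` for all odd `i > 2m - 1`.

The theorem: the Abel–Jacobi map is injective on `CH^m(X)_hom` for all `X` in `𝒱` and all `m` if and
only if it is injective for the pairs `(X, m)` with `OneSided W X m`.

The proof: let `A` be abelian-like and `x = (π_j)_* x` in `CH^m(A)_hom`, `AJ(x) = 0`. If `j` is even
or `j ≥ 2m - 1`, then `x` is recovered from a cycle on `X_j`, and `(X_j, m)` is one-sided. If `j` is
odd, `j < 2m - 1`, the transposed correspondences recover `x` from a cycle of codimension
`m + dim X_r - dim A` on `X_r`, `r = 2 dim A - j`, and Poincaré duality on `X_r` shows that this pair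
is one-sided, too.
-/

open Pool.Agent.H914 Pool.Agent.R903 Pool.Agent.R898.HL Pool.Agent.R898.QO Pool.Agent.R898.AK
  Pool.Agent.R898.AQ

universe u v w

/-- Injectivity of the Abel–Jacobi map and varieties with little odd cohomology. -/
theorem Pool.Agent.Results.MP_a1cc03_ag.OneSidedVarieties.result {k : Type u} [Field k]
    {𝒱 : VarClass k} (C : ChowTheory.{u, v} 𝒱) (hPol : C.Polarized) (W : WeilTheory.{u, v, w} C)
    (T : AJMap W) (S : ∀ A : 𝒱.Obj, C.CH A → Prop) (hS : IsAbelianClass W S) :
    (∀ (X : 𝒱.Obj) (m : ℕ), AJInj T X m) ↔
      ∀ (X : 𝒱.Obj) (m : ℕ), OneSided W X m → AJInj T X m :=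
  iff_oneSided hPol T hS
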